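import Pool.Agent.MP_42ec7b_co.A.Join

/-!
A Hamilton cycle with prescribed colours on the faces around two adjacent vertices.
-/

set_option autoImplicit false

open Finset

namespace Pool.Agent.MP_42ec7b_co

open Classical PM

namespace F5

variable {D : Type} [PM D]

/-- The three faces at the initial vertex of `c` that follow the face of `c`. -/
noncomputable def St (c : D) : Finset (F D) := {f (ρ c), f (ρ (ρ c)), f (ρ (ρ (ρ c)))}

lemma mem_St {c : D} {g : F D} :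
    g ∈ St c ↔ g = f (ρ c) ∨ g = f (ρ (ρ c)) ∨ g = f (ρ (ρ (ρ c))) := by
  simp only [St, mem_insert, mem_singleton]

lemma ne1 (c : D) : f (ρ c) ≠ f c := fun h => ρne c (eq_of_fv h (vρ c))

lemma ne2 (c : D) : f (ρ (ρ c)) ≠ f c := fun h => ρρne c (eq_of_fv h (by simp))

lemma ne3 (c : D) : f (ρ (ρ (ρ c))) ≠ f c := fun h => ρρρne c (eq_of_fv h (by simp))

lemma tch_St {c : D} {g : F D} (h : g ∈ St c) : Tch {g} (v c) := by
  rcases mem_St.1 h with rfl | rfl | rfl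
  exacts [tch_one.2 ⟨_, by simp, rfl⟩, tch_one.2 ⟨_, by simp, rfl⟩, tch_one.2 ⟨_, by simp, rfl⟩]

lemma not_St (c : D) : f c ∉ St c := fun h => by
  rcases mem_St.1 h with k | k | k
  exacts [ne1 c k.symm, ne2 c k.symm, ne3 c k.symm]

lemma in1 (c : D) : f (α c) ∈ St c := mem_St.2 (Or.inl (fρ c).symm)

lemma in1' (c : D) : f c ∈ St (α c) := by simpa using in1 (α c)

/-- A face that touches both ends of an edge is one of its sides. -/
lemma both {c : D} {g : F D} (h1 : Tch {g} (v c)) (h2 : Tch {g} (v (α c))) :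
    g = f c ∨ g = f (α c) := by
  by_contra k
  rw [not_or] at k
  obtain ⟨d, d1, d2, ⟨d3, d4⟩ | ⟨d3, d4⟩⟩ := two_v k.1 (loop c).symm h1
    (tch_v (mem_singleton_self _)) h2 (tch_α (mem_singleton_self _))
  · exact k.1 (by rw [← d1, simple d c d3 d4])
  · exact k.2 (by rw [← d1, simple d (α c) d3 (by rw [d4, αα])])

lemma disj {c : D} {g : F D} (h1 : g ∈ St c) (h2 : g ∈ St (α c)) : False := by
  rcases both (tch_St h1) (tch_St h2) with rfl | rfl
  exacts [not_St c h1, not_St (α c) h2]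

lemma conn_St (c : D) : Conn (St c) :=
  conn_insert (d := ρ c) (conn_insert (d := ρ (ρ c)) (conn_single _) (by simp)) (by simp)

/-- An edge between two faces of the star ends at the centre. -/
lemma inner {c d : D} (h1 : f d ∈ St c) (h2 : f (α d) ∈ St c) : v d = v c ∨ v (α d) = v c := by
  by_contra k
  rw [not_or] at k
  exact loop d (three_v (s0 d) (Ne.symm k.2) (Ne.symm k.1) (tch_St h2) (tch_St h1)
    (tch_v (mem_singleton_self _)) (tch_α (mem_singleton_self _))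
    (tch_v' (mem_singleton_self _)) (tch_v (mem_singleton_self _)))

lemma ad_side {c : D} {K : Finset (F D)} (k1 : K ⊆ (St c ∪ St (α c))ᶜ) (k2 : K.Nonempty)
    (k3 : Cl (St c ∪ St (α c))ᶜ K) : Ad K (St (α c)) := by
  by_contra k
  have nA : ∀ g ∈ K, g ∉ St c := fun g hg m => mem_compl.1 (k1 hg) (mem_union_left _ m)
  have nB : ∀ g ∈ K, g ∉ St (α c) := fun g hg m => mem_compl.1 (k1 hg) (mem_union_right _ m)
  have cl : ∀ d, f d ∈ K → f (α d) ∉ St c → f (α d) ∈ K := fun d m1 m2 =>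
    k3 d m1 (mem_compl.2 fun m => (mem_union.1 m).elim m2 fun m3 => k ⟨d, m1, m3⟩)
  obtain ⟨g, hg⟩ := k2
  obtain ⟨x, rfl⟩ := f_surj g
  have b1 : ∀ g ∈ St (α c), g ∈ (St c)ᶜ \ K := fun g m =>
    mem_sdiff.2 ⟨mem_compl.2 fun m' => disj m' m, fun m' => nB g m' m⟩
  rcases cut_three (f (ρ c)) (f (ρ (ρ c))) (f (ρ (ρ (ρ c)))) (K := K) (c := x) (c' := c)
    (fun g m => mem_compl.2 (nA g m)) (fun d m1 m2 => cl d m1 (mem_compl.1 m2)) hg
    (b1 _ (in1' c)) with ⟨e1, e2⟩ | ⟨e1, -⟩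
  · have o : ∀ d, f d = f x → f (α d) ∈ St c := fun d m => by
      by_contra m'
      have := cl d (m ▸ hg) m'
      rw [e1, mem_singleton, ← m] at this
      exact s0 d this
    have n : ∀ d d', f d = f x → f d' = f x → d ≠ d' → f (α d) ≠ f (α d') :=
      fun d d' m1 m2 m3 m4 => m3 (s1 (m1.trans m2.symm) m4)
    have a1 : ∀ d d', f d = f x → f d' = f x → f (α d) = f (ρ c) →
        f (α d') ≠ f (ρ (ρ c)) := fun d d' m1 m2 m3 m4 =>
      sun_not_adj (e := ρ c) (m1.trans m2.symm) m3.symm (by rw [m4, fρ (ρ c)])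
    have a2 : ∀ d d', f d = f x → f d' = f x → f (α d) = f (ρ (ρ c)) →
        f (α d') ≠ f (ρ (ρ (ρ c))) := fun d d' m1 m2 m3 m4 =>
      sun_not_adj (e := ρ (ρ c)) (m1.trans m2.symm) m3.symm (by rw [m4, fρ (ρ (ρ c))])
    have f1 : f (φ x) = f x := by simp
    have f2 : f (φ (φ x)) = f x := by simp
    have n1 := n x (φ x) rfl f1 (φne x).symm
    have n2 := n (φ x) (φ (φ x)) f1 f2 (φne _).symm
    have n3 := n x (φ (φ x)) rfl f2 fun m => face_v2 x (by rw [← m])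
    have p1 := a1 x (φ x) rfl f1
    have p2 := a1 (φ x) x f1 rfl
    have p3 := a1 x (φ (φ x)) rfl f2
    have p4 := a1 (φ (φ x)) x f2 rfl
    have p5 := a1 (φ x) (φ (φ x)) f1 f2
    have p6 := a1 (φ (φ x)) (φ x) f2 f1
    have o1 := mem_St.1 (o x rfl)
    have o2 := mem_St.1 (o _ f1)
    have o3 := mem_St.1 (o _ f2)
    clear a1 a2 n o cl nA nB b1
    generalize f (α x) = y1 at *
    generalize f (α (φ x)) = y2 at *
    generalize f (α (φ (φ x))) = y3 at *
    generalize f (ρ (ρ (ρ c))) = z3 at *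
    generalize f (ρ (ρ c)) = z2 at *
    generalize f (ρ c) = z1 at *
    grind
  · have m := b1 _ (mem_St.2 (Or.inr (Or.inl rfl)) : f (ρ (ρ (α c))) ∈ St (α c))
    change (St c)ᶜ \ K = _ at e1
    rw [e1, mem_singleton] at m
    exact ne1 (ρ (α c)) (by rw [m, fρ, αα])

lemma inst (c : D) : Inst (St c) (St (α c)) (St c ∪ St (α c))ᶜ :=
  ⟨fun g => by
    have := @disj D _ c g
    simp only [mem_compl, mem_union]
    tauto, conn_St _, conn_St _, ⟨α c, in1 c, by rw [αα]; exact in1' c⟩,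
    fun g hg => by
      obtain ⟨K, k1, k2, k3, k4⟩ := exists_comp hg
      refine ⟨K, k1, k3, k2, ?_, ad_side k1 ⟨g, k2⟩ k4⟩
      have := ad_side (c := α c) (K := K) (by rwa [αα, union_comm]) ⟨g, k2⟩
        (by rwa [αα, union_comm])
      rwa [αα] at this,
    fun a b c' => by
      rw [compl_compl]
      obtain ⟨r, r1, r2⟩ := four_pair c a b c'
      exact ⟨r, r1.mono (insert_subset (mem_union_right _ (in1' c))
        (singleton_subset_iff.2 (mem_union_left _ (in1 c)))), r2⟩⟩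

lemma no_red (h4 : ∀ d : D, ρ (ρ (ρ (ρ d))) = d) {c : D} {S : Finset (F D)} {W : D → Prop}
    (s : Sol (St c) (St (α c)) (St c ∪ St (α c))ᶜ W S) {u : V D} (hu : ¬BV S u)
    (hr : Tch S u) : False := by
  have nb : ∀ g ∈ St (α c), g ∉ S := fun g m => mem_compl.1 (s.sB m)
  have b1 : Bd S (α c) := ⟨s.sA (in1 c), by rw [αα]; exact nb _ (in1' c)⟩
  have b2 : Bd S (ρ (ρ (ρ c))) := ⟨s.sA (mem_St.2 (Or.inr (Or.inr rfl))), by
    rw [← fρ, h4]; exact nb _ (in1' c)⟩
  have b3 : Bd Sᶜ (ρ (ρ (ρ (α c)))) := ⟨s.sB (mem_St.2 (Or.inr (Or.inr rfl))), by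
    rw [← fρ, h4, mem_compl, not_not]; exact s.sA (in1 c)⟩
  have va : BV S (v c) := by simpa using b1.bv'
  obtain ⟨a, b, hab⟩ := s.good u
  obtain ⟨a', m1, m2⟩ : ∃ a', BV S a' ∧ (BV S a → a = a') := by
    by_cases k : BV S a
    exacts [⟨a, k, fun _ => rfl⟩, ⟨_, va, fun m => absurd m k⟩]
  obtain ⟨b', m3, m4⟩ : ∃ b', BV S b' ∧ (BV S b → b = b') := by
    by_cases k : BV S b
    exacts [⟨b, k, fun _ => rfl⟩, ⟨_, va, fun m => absurd m k⟩]
  obtain ⟨w, w0, w1, w2, w3⟩ := face_pick (P := BV S) va b1.bv b2.bv' (bv_compl.1 b3.bv')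
    (loop c) (by simpa using loop (ρ (ρ (ρ c))))
    (fun k => ρρρne (α c) (simple _ _ (by simp) (by rw [k, αα])))
    (fun k => ρρρne c (simple _ _ (by simp) k)) (by simpa using loop (ρ (ρ (ρ (α c)))))
    (fun k => by
      have t1 : Tch {f c} (v (α (ρ (ρ (ρ c))))) := tch_v (by rw [← fρ, h4]; simp)
      have t2 : Tch {f (α c)} (v (α (ρ (ρ (ρ (α c)))))) := tch_v (by rw [← fρ (ρ (ρ (ρ (α c)))), h4]; simp)
      have := three_v (s0 c) (loop c).symm
        (show v c ≠ v (α (ρ (ρ (ρ c)))) by simpa using (loop (ρ (ρ (ρ c)))).symm)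
        (tch_v' (mem_singleton_self _)) (tch_v (mem_singleton_self _))
        (tch_v (mem_singleton_self _)) (tch_α (mem_singleton_self _)) (k ▸ t2) t1
      exact ρρρne c (simple _ _ (by simp) this.symm)) a' b' (v c)
  refine (c4 {r | Rch (InE (St c ∪ St (α c))ᶜ) (fun r => ¬BV S r) u r ∧ ¬BV S r}
    a' b' (v c) (fun d k1 k2 => ?_) u ⟨Rch.refl, hu⟩ (fun k => hu (k ▸ m1)) (fun k => hu (k ▸ m3))
    (fun k => hu (k ▸ va)) w w1 w2 w3).2 w0
  by_cases k3 : InE (St c ∪ St (α c))ᶜ d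
  · have k4 := k1.1.tail k1.2 k3
    have k5 : BV S (v (α d)) := by_contra fun m => k2 ⟨k4, m⟩
    rcases hab _ k4 k5 with x | x
    · exact Or.inl (x.trans (m2 (x ▸ k5)))
    · exact Or.inr (Or.inl (x.trans (m4 (x ▸ k5))))
  · have red : ∀ e, ¬BV S (v e) → Tch S (v e) → f e ∈ S := fun e q1 ⟨e', q2, q3⟩ =>
      (mono_iff q1 q2.symm).2 q3
    have t : Tch S (v d) := k1.1.ind (P := fun r => Tch S r) hr
      fun e _ q1 _ q2 => tch_α (red e q1 q2)
    have r1 := red d k1.2 t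
    have r2 : f (α d) ∈ S := by
      rw [← fρ]
      exact red (ρ d) (by simpa using k1.2) (by simpa using t)
    have q : ∀ g ∈ S, g ∉ (St c ∪ St (α c))ᶜ → g ∈ St c := fun g m m' =>
      (mem_union.1 (not_not.1 (mt mem_compl.2 m'))).resolve_right fun m2 => nb _ m2 m
    rcases inner (q _ r1 fun m => k3 (Or.inl m)) (q _ r2 fun m => k3 (Or.inr m)) with x | x
    · exact absurd (x ▸ va) k1.2
    · exact Or.inr (Or.inr x)

/-- The Hamilton cycle. -/
theorem ext (h4 : ∀ d : D, ρ (ρ (ρ (ρ d))) = d) (c e : D) (h1 : f (α e) ∈ St c)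
    (h2 : f e ∉ St c) : ∃ S : Finset (F D), Disc S ∧ St c ⊆ S ∧ (∀ g ∈ St (α c), g ∉ S) ∧
      f e ∉ S ∧ ∀ u, BV S u := by
  obtain ⟨S, s⟩ := extend (W := fun d => d = e ∧ f e ∉ St (α c)) (inst c) ⟨by
    rintro _ ⟨rfl, k⟩
    exact ⟨mem_compl.2 fun m => (mem_union.1 m).elim h2 k,
      fun m => mem_compl.1 m (mem_union_left _ h1)⟩, fun _ _ _ a b _ _ _ _ => a.1.trans b.1.symm⟩
  refine ⟨S, s.disc (inst c), s.sA, fun g m => mem_compl.1 (s.sB m), fun k => ?_,
    fun u => by_contra fun hu => ?_⟩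
  · by_cases m : f e ∈ St (α c)
    · exact mem_compl.1 (s.sB m) k
    · exact s.pre e ⟨rfl, m⟩ (iff_of_true k (s.sA h1))
  by_cases k : Tch S u
  · exact no_red h4 s hu k
  · obtain ⟨d, rfl⟩ := v_surj u
    refine no_red h4 (c := α c) (S := Sᶜ) (W := fun d => d = e ∧ f e ∉ St (α c)) ?_
      (mt bv_compl.1 hu) (tch_v (mem_compl.2 fun m => k (tch_v m)))
    rw [αα, union_comm]
    exact s.symm

end F5

end Pool.Agent.MP_42ec7b_co
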