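import Pool.Agent.MP_42ec7b_co.F5.Run

/-!
One of the two configurations occurs; the short lengths; transfer to graphs.
-/

set_option autoImplicit false

open Finset

namespace Pool.Agent.MP_42ec7b_co

open Classical PM

namespace F5

section
variable {D : Type} [PM D]

/-- The number of neighbours of size `k`. -/
noncomputable def Nb (k : ℕ) (g : F D) : ℕ := #{d | f d = g ∧ sz (f (α d)) = k}

lemma sum_Nb (k : ℕ) : ∑ g : F D, Nb k g = k * #{g : F D | sz g = k} := by
  have a : #{d : D | sz (f (α d)) = k} = ∑ g : F D, Nb k g := by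
    rw [card_eq_sum_card_fiberwise (f := f) (t := univ) fun d _ => mem_coe.2 (mem_univ _)]
    refine sum_congr rfl fun g _ => ?_
    rw [Nb, filter_filter]
    exact congrArg card (filter_congr fun d _ => and_comm)
  have b : #{d : D | sz (f (α d)) = k} = wt (univ.filter fun g : F D => sz g = k) :=
    card_equiv α fun d => by simp
  rw [← a, b, wt_sum, sum_congr rfl fun g hg => (mem_filter.1 hg).2, sum_const, smul_eq_mul,
    mul_comm]

/-- No two triangles are diagonal. -/
def NoD (D : Type) [PM D] : Prop := ∀ d : D, sz (f d) = 3 → sz (f (ρ (ρ d))) ≠ 3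

lemma half (h : NoD D) (g : F D) : 2 * Nb 3 g ≤ sz g := by
  have a : Nb 3 g ≤ #{d | f d = g ∧ ¬sz (f (α d)) = 3} :=
    card_le_card_of_injOn φ (fun d hd => by
      obtain ⟨k1, k2⟩ := (mem_filter.1 (mem_coe.1 hd)).2
      refine mem_coe.2 (mem_filter.2 ⟨mem_univ _, by rwa [fφ], ?_⟩)
      rw [← fρ, φ_def]
      exact h _ k2) φ.injective.injOn
  have b := card_filter_add_card_filter_not (s := univ.filter fun d : D => f d = g)
    fun d => sz (f (α d)) = 3
  rw [filter_filter, filter_filter] at b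
  unfold Nb sz at *
  omega

lemma Nb_zero {k : ℕ} {g : F D} (h : ∀ d, f d = g → sz (f (α d)) ≠ k) : Nb k g = 0 :=
  card_eq_zero.2 (filter_eq_empty_iff.2 fun d _ k => h d k.1 k.2)

lemma exists_house [Q4 D] (h : NoD D) : ∃ c : D, sz (f c) = 3 ∧ sz (f (α c)) = 4 := by
  by_contra k
  have a : ∑ g : F D, Nb 3 g ≤ ∑ g : F D, ((if sz g = 3 then 1 else 0) + 2 * (sz g - 4)) :=
    sum_le_sum fun g _ => by
      have b := half h g
      have b3 := three_le_sz g
      have b4 : sz g = 4 → Nb 3 g = 0 := fun m => Nb_zero fun d m1 m2 =>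
        k ⟨α d, m2, by rwa [αα, m1]⟩
      split_ifs <;> omega
  have e := (cnt D).2.2.2.1
  rw [sum_Nb, sum_add_distrib, ← card_filter, ← mul_sum] at a
  rw [tri] at e
  omega

lemma six [Q4 D] (h : NoD D) (h5 : ∀ g : F D, sz g ≤ 5) : Has D 6 := by
  by_contra k
  have p : ∀ d : D, sz (f d) + sz (f (α d)) ≠ 8 := fun d m => k (by simpa [m] using has_pair d)
  have a : ∑ g : F D, 3 * Nb 3 g ≤ ∑ g : F D, (Nb 5 g + 3 * if sz g = 3 then 1 else 0) :=
    sum_le_sum fun g _ => by
      have b := half h g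
      have b3 := three_le_sz g
      have b6 := h5 g
      have b5 : sz g = 5 → Nb 3 g = 0 := fun m => Nb_zero fun d m1 m2 =>
        p d (by rw [m1, m, m2])
      have b4 : sz g = 4 → 0 < Nb 3 g → Nb 3 g ≤ 1 ∧ 3 ≤ Nb 5 g := fun m m' => by
        obtain ⟨d, hd⟩ := card_pos.1 m'
        obtain ⟨rfl, d2⟩ := (mem_filter.1 hd).2
        have q : ∀ e, f e = f d → e ≠ d → sz (f (α e)) = 5 := fun e e1 e2 => by
          have q1 := p e
          have q2 := three_le_sz (f (α e))
          have q3 := h5 (f (α e))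
          obtain ⟨q4, q5⟩ := sun3 e1 e2
          have q6 : ell ({f (α e), f e, f (α d)} : Finset (F D)) ≠ 6 := fun x => k ⟨_, q4, x⟩
          rw [e1] at q1 q5 q6
          omega
        refine ⟨card_le_one.2 fun x hx y hy => ?_, ?_⟩
        · have z : ∀ x ∈ univ.filter fun e => f e = f d ∧ sz (f (α e)) = 3, x = d := fun x hx => by
            by_contra n
            have := q x (mem_filter.1 hx).2.1 n
            have := (mem_filter.1 hx).2.2
            omega
          rw [z x hx, z y hy]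
        · have z : #((univ.filter fun e => f e = f d).erase d) ≤ Nb 5 (f d) :=
            card_le_card fun e he => mem_filter.2 ⟨mem_univ _, (mem_filter.1 (mem_erase.1 he).2).2,
              q e (mem_filter.1 (mem_erase.1 he).2).2 (mem_erase.1 he).1⟩
          rw [card_erase_of_mem (by simp)] at z
          unfold sz at m
          omega
      split_ifs <;> omega
  have e := (cnt D).2.2.2.1
  have e5 : ∑ g : F D, (sz g - 4) = #{g : F D | sz g = 5} := by
    rw [card_filter]
    exact sum_congr rfl fun g _ => by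
      have := h5 g
      split_ifs <;> omega
  rw [← mul_sum, sum_Nb, sum_add_distrib, sum_Nb, ← mul_sum, ← card_filter] at a
  rw [tri] at e
  omega

lemma miss_mono {a b c : ℕ} (h : a ≤ b) : miss D b c ≤ miss D a c :=
  card_le_card (filter_subset_filter _ (Ico_subset_Ico_left h))

lemma of_diag [Q4 D] (h : ¬NoD D) : miss D 5 (nv D + 1) ≤ ∑ x : F D, (sz x - 5) := by
  simp only [NoD, not_forall, not_not] at h
  obtain ⟨d, h1, h2⟩ := h
  have h4 := (cnt D).1
  exact diagonal (c := ρ (ρ (ρ d))) (by rwa [h4]) (by rwa [h4])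

theorem main1 [Q4 D] : miss D 7 (nv D + 1) ≤ ∑ x : F D, (sz x - 5) := by
  by_cases h : NoD D
  · obtain ⟨c, c1, c2⟩ := exists_house h
    exact house c1 c2
  · exact (miss_mono (by omega)).trans (of_diag h)

theorem main2 [Q4 D] (h5 : ∀ g : F D, sz g ≤ 5) {k : ℕ} (h3 : 3 ≤ k) (hn : k ≤ nv D)
    (h4 : k ≠ 4) : Has D k := by
  have z : ∑ x : F D, (sz x - 5) = 0 := sum_eq_zero fun x _ => Nat.sub_eq_zero_of_le (h5 x)
  have use : ∀ lo, lo ≤ k → miss D lo (nv D + 1) ≤ ∑ x : F D, (sz x - 5) → Has D k :=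
    fun lo h1 h2 => by
      by_contra m
      have : 0 < miss D lo (nv D + 1) :=
        card_pos.2 ⟨k, mem_filter.2 ⟨mem_Ico.2 ⟨h1, by omega⟩, m⟩⟩
      omega
  by_cases a : k = 3
  · have e := (cnt D).2.2.2.1
    obtain ⟨t, ht⟩ : (tri (univ : Finset (F D))).Nonempty := card_pos.1 (by omega)
    exact ⟨{t}, disc_single t, by rw [ell_single, a]; exact (mem_filter.1 ht).2⟩
  by_cases h : NoD D
  · obtain ⟨c, c1, c2⟩ := exists_house h
    by_cases a5 : k = 5
    · simpa [c1, c2, a5] using has_pair c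
    by_cases a6 : k = 6
    · exact a6 ▸ six h h5
    exact use 7 (by omega) (house c1 c2)
  · exact use 5 (by omega) (of_diag h)

end

/-- `ρ`, `φ` form a rotation system of genus zero of `G`: the cycles of `ρ` are the sets of darts
with a common initial vertex, `φ d = ρ (reverse of d)`, the faces are the cycles of `φ`, and
`|V| + |F| = |E| + 2`. -/
def IsPlane {V : Type} (G : SimpleGraph V) (ρ φ : Equiv.Perm G.Dart) : Prop :=
  (∀ d d', ρ.SameCycle d d' ↔ d.fst = d'.fst) ∧ (∀ d, φ d = ρ d.symm) ∧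
    Nat.card V + Nat.card (Quotient (Equiv.Perm.SameCycle.setoid φ)) = Nat.card G.edgeSet + 2

/-- The size of a face: the number of darts in the cycle of `φ`. -/
noncomputable def faceSize {X : Type} {φ : Equiv.Perm X}
    (x : Quotient (Equiv.Perm.SameCycle.setoid φ)) : ℕ :=
  {d : X | Quotient.mk (Equiv.Perm.SameCycle.setoid φ) d = x}.ncard

theorem final (V : Type) [Fintype V] (G : SimpleGraph V) (ρ φ : Equiv.Perm G.Dart)
    (hp : IsPlane G ρ φ) (hr : ∀ v : V, (G.neighborSet v).ncard = 4)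
    (h4 : 4 < Fintype.card V ∧
      ∀ S : Finset V, S.card ≤ 3 → (G.induce ((↑S : Set V)ᶜ)).Connected) :
    {k : ℕ | 7 ≤ k ∧ k ≤ Fintype.card V ∧
        ¬∃ (v : V) (p : G.Walk v v), p.IsCycle ∧ p.length = k}.ncard ≤
      ∑ᶠ x : Quotient (Equiv.Perm.SameCycle.setoid φ), (faceSize x - 5) ∧
    ((∀ x : Quotient (Equiv.Perm.SameCycle.setoid φ), faceSize x ≤ 5) →
      ∀ k : ℕ, 3 ≤ k → k ≤ Fintype.card V → k ≠ 4 →
        ∃ (v : V) (p : G.Walk v v), p.IsCycle ∧ p.length = k) := by
  obtain ⟨hρ, hφ, he⟩ := hp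
  let I := toPM h4.1 h4.2 hρ hφ he
  have q : @Q4 _ I := ⟨fun u => by
    have := G.dart_fst_fiber_card_eq_degree u
    rw [← SimpleGraph.card_neighborSet_eq_degree, ← Nat.card_eq_fintype_card,
      Nat.card_coe_set_eq, hr] at this
    rw [← this]
    exact congrArg card (by ext d; simp only [mem_filter, mem_univ, true_and]; rfl)⟩
  have e : @PM.Γ _ I = G := by
    ext u w
    exact ⟨fun ⟨d, h1, h2⟩ => h1 ▸ h2 ▸ d.adj, fun a => ⟨⟨(u, w), a⟩, rfl, rfl⟩⟩
  have cy : ∀ k, @Has _ I k → ∃ (v : V) (p : G.Walk v v), p.IsCycle ∧ p.length = k := by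
    rintro _ ⟨S, s1, rfl⟩
    have := @cyc_ell _ I _ s1
    rw [e] at this
    exact this
  have sz' : ∀ x, @sz _ I x = faceSize x := fun x => by
    rw [faceSize, sz, ← Set.ncard_coe_finset]
    congr 1
    ext d
    simp only [coe_filter, mem_univ, true_and, Set.mem_ofPred_eq]
    rfl
  refine ⟨?_, fun h5 k k1 k2 k3 => cy k (@main2 _ I q (fun g => sz' g ▸ h5 g) k k1 k2 k3)⟩
  have m := @main1 _ I q
  rw [miss, ← Set.ncard_coe_finset, ← finsum_eq_sum_of_fintype] at m
  simp only [sz'] at m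
  refine (Set.ncard_le_ncard (fun k hk => ?_) (finite_toSet _)).trans m
  exact mem_coe.2 (mem_filter.2 ⟨mem_Ico.2 ⟨hk.1, Nat.lt_succ_of_le hk.2.1⟩,
    fun x => hk.2.2 (cy k x)⟩)

end F5

end Pool.Agent.MP_42ec7b_co
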