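import Pool.Agent.MP_42ec7b_co.F5.Main

/-!
The length six for faces of any size; one inequality for all lengths other than four.
-/

set_option autoImplicit false

open Finset

namespace Pool.Agent.MP_42ec7b_co

open Classical PM

namespace F5

section
variable {D : Type} [PM D]

/-- The number of neighbours of size at least five. -/
noncomputable def Nl (g : F D) : ℕ := #{d | f d = g ∧ 5 ≤ sz (f (α d))}

lemma sum_Nl : ∑ g : F D, Nl g = ∑ g : F D, if 5 ≤ sz g then sz g else 0 := by
  have a : #{d : D | 5 ≤ sz (f (α d))} = ∑ g : F D, Nl g := by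
    rw [card_eq_sum_card_fiberwise (f := f) (t := univ) fun d _ => mem_coe.2 (mem_univ _)]
    refine sum_congr rfl fun g _ => ?_
    rw [Nl, filter_filter]
    exact congrArg card (filter_congr fun d _ => and_comm)
  have b : #{d : D | 5 ≤ sz (f (α d))} = wt (univ.filter fun g : F D => 5 ≤ sz g) :=
    card_equiv α fun d => by simp
  rw [← a, b, wt_sum, sum_filter]

lemma six' [Q4 D] (h : NoD D) : Has D 6 := by
  by_contra k
  have p : ∀ d : D, sz (f d) + sz (f (α d)) ≠ 8 := fun d m => k (by simpa [m] using has_pair d)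
  have a : ∑ g : F D, (3 * Nb 3 g + if 5 ≤ sz g then sz g else 0) ≤
      ∑ g : F D, (Nl g + (3 * (if sz g = 3 then 1 else 0) + 6 * (sz g - 4))) :=
    sum_le_sum fun g _ => by
      have b := half h g
      have b3 := three_le_sz g
      have b6 : sz g ≠ 6 := fun m => k ⟨{g}, disc_single g, by rw [ell_single, m]⟩
      have b5 : sz g = 5 → Nb 3 g = 0 := fun m => Nb_zero fun d m1 m2 =>
        p d (by rw [m1, m, m2])
      have b4 : sz g = 4 → 0 < Nb 3 g → Nb 3 g ≤ 1 ∧ 3 ≤ Nl g := fun m m' => by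
        obtain ⟨d, hd⟩ := card_pos.1 m'
        obtain ⟨rfl, d2⟩ := (mem_filter.1 hd).2
        have q : ∀ e, f e = f d → e ≠ d → 5 ≤ sz (f (α e)) := fun e e1 e2 => by
          have q1 := p e
          have q2 := three_le_sz (f (α e))
          obtain ⟨q4, q5⟩ := sun3 e1 e2
          have q6 : ell ({f (α e), f e, f (α d)} : Finset (F D)) ≠ 6 := fun x => k ⟨_, q4, x⟩
          rw [e1] at q1 q5 q6
          omega
        refine ⟨card_le_one.2 fun x hx y hy => ?_, ?_⟩
        · have z : ∀ x ∈ univ.filter fun e => f e = f d ∧ sz (f (α e)) = 3, x = d := fun x hx => by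
            by_contra n
            have := q x (mem_filter.1 hx).2.1 n
            have := (mem_filter.1 hx).2.2
            omega
          rw [z x hx, z y hy]
        · have z : #((univ.filter fun e => f e = f d).erase d) ≤ Nl (f d) :=
            card_le_card fun e he => mem_filter.2 ⟨mem_univ _, (mem_filter.1 (mem_erase.1 he).2).2,
              q e (mem_filter.1 (mem_erase.1 he).2).2 (mem_erase.1 he).1⟩
          rw [card_erase_of_mem (by simp)] at z
          unfold sz at m
          omega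
      split_ifs <;> omega
  have e := (cnt D).2.2.2.1
  rw [sum_add_distrib, sum_add_distrib, sum_add_distrib, ← mul_sum, ← mul_sum, ← mul_sum, sum_Nb,
    sum_Nl, ← card_filter] at a
  rw [tri] at e
  omega

theorem main3 [Q4 D] : ∃ lo, miss D lo (nv D + 1) ≤ ∑ x : F D, (sz x - 5) ∧
    ∀ k, 3 ≤ k → k ≠ 4 → k < lo → Has D k := by
  have a3 : Has D 3 := by
    have e := (cnt D).2.2.2.1
    obtain ⟨t, ht⟩ : (tri (univ : Finset (F D))).Nonempty := card_pos.1 (by omega)
    exact ⟨{t}, disc_single t, by rw [ell_single]; exact (mem_filter.1 ht).2⟩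
  by_cases h : NoD D
  · obtain ⟨c, c1, c2⟩ := exists_house h
    have a5 : Has D 5 := by simpa [c1, c2] using has_pair c
    refine ⟨7, house c1 c2, fun k k1 k2 k3 => ?_⟩
    obtain rfl | rfl | rfl : k = 3 ∨ k = 5 ∨ k = 6 := by omega
    exacts [a3, a5, six' h]
  · refine ⟨5, of_diag h, fun k k1 k2 k3 => ?_⟩
    obtain rfl : k = 3 := by omega
    exact a3

end

theorem final1 (V : Type) [Fintype V] (G : SimpleGraph V) (ρ φ : Equiv.Perm G.Dart)
    (hp : IsPlane G ρ φ) (hr : ∀ v : V, (G.neighborSet v).ncard = 4)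
    (h4 : 4 < Fintype.card V ∧
      ∀ S : Finset V, S.card ≤ 3 → (G.induce ((↑S : Set V)ᶜ)).Connected) :
    {k : ℕ | 3 ≤ k ∧ k ≤ Fintype.card V ∧ k ≠ 4 ∧
        ¬∃ (v : V) (p : G.Walk v v), p.IsCycle ∧ p.length = k}.ncard ≤
      ∑ᶠ x : Quotient (Equiv.Perm.SameCycle.setoid φ), (faceSize x - 5) := by
  obtain ⟨hρ, hφ, he⟩ := hp
  let I := toPM h4.1 h4.2 hρ hφ he
  have q : @Q4 _ I := ⟨fun u => by
    have := G.dart_fst_fiber_card_eq_degree u
    rw [← SimpleGraph.card_neighborSet_eq_degree, ← Nat.card_eq_fintype_card,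
      Nat.card_coe_set_eq, hr] at this
    rw [← this]
    exact congrArg card (by ext d; simp only [mem_filter, mem_univ, true_and]; rfl)⟩
  have e : @PM.Γ _ I = G := by
    ext u w
    exact ⟨fun ⟨d, h1, h2⟩ => h1 ▸ h2 ▸ d.adj, fun a => ⟨⟨(u, w), a⟩, rfl, rfl⟩⟩
  have cy : ∀ k, @Has _ I k → ∃ (v : V) (p : G.Walk v v), p.IsCycle ∧ p.length = k := by
    rintro _ ⟨S, s1, rfl⟩
    have := @cyc_ell _ I _ s1
    rw [e] at this
    exact this
  have sz' : ∀ x, @sz _ I x = faceSize x := fun x => by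
    rw [faceSize, sz, ← Set.ncard_coe_finset]
    congr 1
    ext d
    simp only [coe_filter, mem_univ, true_and, Set.mem_ofPred_eq]
    rfl
  obtain ⟨lo, m, m'⟩ := @main3 _ I q
  rw [miss, ← Set.ncard_coe_finset, ← finsum_eq_sum_of_fintype] at m
  simp only [sz'] at m
  refine (Set.ncard_le_ncard (fun k hk => ?_) (finite_toSet _)).trans m
  have n : ¬@Has _ I k := fun x => hk.2.2.2 (cy k x)
  exact mem_coe.2 (mem_filter.2 ⟨mem_Ico.2 ⟨not_lt.1 fun x => n (m' k hk.1 hk.2.2.1 x),
    Nat.lt_succ_of_le hk.2.1⟩, n⟩)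

end F5

end Pool.Agent.MP_42ec7b_co
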