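import Pool.Agent.MP_42ec7b_co.F5.Ext

/-!
Two local configurations that give three consecutive lengths at every stage of a shelling.
-/

set_option autoImplicit false

open Finset

namespace Pool.Agent.MP_42ec7b_co

open Classical PM

namespace F5

variable {D : Type} [PM D]

lemma ex_one {A : Finset (F D)} {d : D} (h1 : f (α d) ∈ A)
    (h2 : ∀ e, f e = f d → f (α e) ∈ A → e = d) : ex {f d} A = 1 :=
  card_eq_one.2 ⟨d, by
    ext e
    simp only [mem_filter, mem_univ, true_and, mem_singleton]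
    exact ⟨fun k => h2 e k.1 k.2, fun k => by rw [k]; exact ⟨rfl, h1⟩⟩⟩

lemma leaf {A : Finset (F D)} {d : D} (hA : Disc A) (h0 : f d ∈ A) (h1 : f (α d) ∈ A)
    (h2 : ∀ e, f e = f d → f (α e) ∈ A → e = d) :
    Disc (A.erase (f d)) ∧ ell (A.erase (f d)) + sz (f d) = ell A + 2 := by
  have e0 := ex_one h1 h2
  have e1 := wt_split (S := {f d}) (T := A)
  have e2 := ell_erase h0
  rw [wt_single] at e1
  exact ⟨disc_leaf hA e0, by omega⟩

lemma ell_pair (d : D) :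
    ell ({f d, f (α d)} : Finset (F D)) + 2 = sz (f d) + sz (f (α d)) := by
  have e0 : ex {f d} {f (α d)} = 1 := ex_one (mem_singleton_self _)
    fun e k1 k2 => s1 k1 (mem_singleton.1 k2)
  have e1 := ell_insert (S := {f (α d)}) (g := f d) fun k => s0 d (mem_singleton.1 k).symm
  rw [ell_single] at e1
  omega

lemma has_pair (d : D) : Has D (sz (f d) + sz (f (α d)) - 2) :=
  ⟨{f d, f (α d)}, sun_disc fun x hx => ⟨α d, by simpa using (mem_singleton.1 hx).symm,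
    by simp⟩, by have := ell_pair d; omega⟩

lemma sun3 {d d' : D} (h : f d = f d') (n : d ≠ d') :
    Disc ({f (α d), f d, f (α d')} : Finset (F D)) ∧
      ell ({f (α d), f d, f (α d')} : Finset (F D)) + 4 =
        sz (f (α d)) + sz (f d) + sz (f (α d')) := by
  refine ⟨?_, ?_⟩
  · rw [insert_comm]
    refine sun_disc fun x hx => ?_
    rcases mem_insert.1 hx with rfl | k
    · exact ⟨α d, by simp, by simp⟩
    · exact ⟨α d', by simpa using (mem_singleton.1 k).symm, by simp [h]⟩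
  · have e0 : ex {f (α d)} {f d, f (α d')} = 1 := ex_one (by simp) fun e k1 k2 => by
      rcases mem_insert.1 k2 with k | k
      · exact s1 k1 (by rw [k, αα])
      · exact absurd (mem_singleton.1 k) (sun_not_adj h k1)
    have e1 := ell_insert (S := {f d, f (α d')}) (g := f (α d)) fun k => by
      rcases mem_insert.1 k with k | k
      · exact s0 d k
      · exact n (s1 h (mem_singleton.1 k))
    have e2 := ell_pair d'
    rw [← h] at e2
    omega

lemma root (c : D) : Disc (St c) ∧ (ell (St c) + 4 =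
    sz (f (ρ c)) + sz (f (ρ (ρ c))) + sz (f (ρ (ρ (ρ c))))) ∧
    ∑ x ∈ St c, (sz x - 5) = (sz (f (ρ c)) - 5) + ((sz (f (ρ (ρ c))) - 5) +
      (sz (f (ρ (ρ (ρ c)))) - 5)) := by
  have := sun3 (d := α (ρ c)) (d' := ρ (ρ c)) (fρ _).symm fun k =>
    loop (ρ c) (by rw [k]; simp)
  rw [αα, ← fρ (ρ c), ← fρ (ρ (ρ c))] at this
  refine ⟨this.1, this.2, ?_⟩
  rw [St, sum_insert, sum_pair (ne1 _).symm]
  rw [mem_insert, mem_singleton, not_or]
  exact ⟨(ne1 _).symm, (ne2 _).symm⟩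

lemma quad4 {e : D} (h : sz (f e) = 4) : φ (φ (φ (φ e))) = e ∧
    ∀ c, f c = f e → c = e ∨ c = φ e ∨ c = φ (φ e) ∨ c = φ (φ (φ e)) := by
  have n : ∀ e : D, e ≠ φ (φ e) := fun e k => face_v2 e (by rw [← k])
  have n3 : e ≠ φ (φ (φ e)) := fun k => by
    have : #{d | f d = f e} ≤ #({e, φ e, φ (φ e)} : Finset D) := card_le_card fun d hd => by
      simp only [mem_insert, mem_singleton]
      exact face_ind (Q := fun c => c = e ∨ c = φ e ∨ c = φ (φ e)) (Or.inl rfl) (by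
        rintro _ - (rfl | rfl | rfl)
        exacts [Or.inr (Or.inl rfl), Or.inr (Or.inr rfl), Or.inl k.symm]) (mem_filter.1 hd).2
    have := this.trans card_le_three
    unfold sz at h
    omega
  have a : ({e, φ e, φ (φ e), φ (φ (φ e))} : Finset D) = univ.filter fun d => f d = f e :=
    eq_of_subset_of_card_le (fun d hd => by
      simp only [mem_insert, mem_singleton] at hd
      rcases hd with rfl | rfl | rfl | rfl <;> simp) (h.trans
      (card_eq_four.2 ⟨_, _, _, _, (φne e).symm, n e, n3, (φne _).symm, n _, (φne _).symm,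
        rfl⟩).symm).le
  have b : ∀ c, f c = f e → c = e ∨ c = φ e ∨ c = φ (φ e) ∨ c = φ (φ (φ e)) := fun c hc => by
    have : c ∈ ({e, φ e, φ (φ e), φ (φ (φ e))} : Finset D) := a ▸ mem_filter.2 ⟨mem_univ _, hc⟩
    simpa using this
  refine ⟨?_, b⟩
  rcases b (φ (φ (φ (φ e)))) (by simp) with k | k | k | k
  exacts [k, absurd (φ.injective k).symm n3, absurd k.symm (n _), absurd k (φne _)]

/-- Three consecutive lengths. -/
def Tr (D : Type) [PM D] (b : ℕ) : Prop := Has D b ∧ Has D (b - 1) ∧ Has D (b - 2)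

lemma step {lo a b s : ℕ} (h1 : Tr D b) (h : b + 2 ≤ a + s) :
    miss D lo (b + 1) ≤ miss D lo (a + 1) + (s - 5) := by
  refine (card_le_card (t := {k ∈ Ico lo (a + 1) | ¬Has D k} ∪ Ico (a + 1) (b - 2))
    fun k hk => ?_).trans ((card_union_le _ _).trans (Nat.add_le_add_left ?_ _))
  · rw [mem_filter, mem_Ico] at hk
    have k1 : k ≠ b := fun m => hk.2 (m ▸ h1.1)
    have k2 : k ≠ b - 1 := fun m => hk.2 (m ▸ h1.2.1)
    have k3 : k ≠ b - 2 := fun m => hk.2 (m ▸ h1.2.2)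
    rw [mem_union, mem_filter, mem_Ico, mem_Ico]
    by_cases m : k < a + 1
    · exact Or.inl ⟨⟨hk.1.1, m⟩, hk.2⟩
    · exact Or.inr (by omega)
  · rw [Nat.card_Ico]
    omega

lemma run {lo : ℕ} {P S : Finset (F D)} (hP : Disc P) (hS : Disc S) (h : P ⊆ S)
    (hT : ∀ A, P ⊆ A → A ⊆ S → Disc A → Tr D (ell A))
    (h0 : miss D lo (ell P + 1) ≤ ∑ x ∈ P, (sz x - 5)) :
    miss D lo (ell S + 1) ≤ ∑ x : F D, (sz x - 5) :=
  (chain_up (P := fun A => miss D lo (ell A + 1) ≤ ∑ x ∈ A, (sz x - 5)) hP hS h h0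
    fun A d m1 _ _ m4 m5 m6 m7 m8 => by
      have a := ell_insert m5
      have b : 0 < ex {f d} A := ex_pos.2 ⟨d, mem_singleton_self _, m6⟩
      have k := step (lo := lo) (a := ell A) (s := sz (f d))
        (hT _ (m1.trans (subset_insert _ _)) (insert_subset m4 ‹_›) m7) (by omega)
      rw [sum_insert m5]
      omega).trans (sum_le_sum_of_subset (subset_univ _))

lemma φ3 (h4 : ∀ d : D, ρ (ρ (ρ (ρ d))) = d) {x y : D} (h : φ x = y) : α x = ρ (ρ (ρ y)) := by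
  rw [← h, φ_def, h4]

/-- Two diagonal triangles. -/
theorem diagonal [Q4 D] {c : D} (h1 : sz (f (ρ c)) = 3) (h3 : sz (f (ρ (ρ (ρ c)))) = 3) :
    miss D 5 (nv D + 1) ≤ ∑ x : F D, (sz x - 5) := by
  have h4 := (cnt D).1
  have i1 : f (ρ c) ∈ St c := mem_St.2 (Or.inl rfl)
  have i2 : f (ρ (ρ c)) ∈ St c := mem_St.2 (Or.inr (Or.inl rfl))
  have i3 : f (ρ (ρ (ρ c))) ∈ St c := mem_St.2 (Or.inr (Or.inr rfl))
  obtain ⟨t1, t2⟩ := tri3 h1
  obtain ⟨g1, g2⟩ := tri3 h3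
  have t3 : φ (φ (ρ c)) = α c := φ.injective (by rw [t1, φ_def, αα])
  have g3 : φ (φ (ρ (ρ (ρ c)))) = α (ρ (ρ c)) := φ.injective (by rw [g1, φ_def, αα])
  obtain ⟨S, hS, s1', s2, s3, s4⟩ := ext h4 c (α (φ (ρ (ρ (ρ c))))) (by rw [αα, fφ]; exact i3)
    fun k => by
      rcases inner (d := φ (ρ (ρ (ρ c)))) (by rw [fφ]; exact i3) k with x | x
      · exact face_v1 _ (x.trans (by simp))
      · exact face_v2 (ρ (ρ (ρ c))) ((vφ _).trans (x.trans (by simp)))
  have o1 : ∀ e, f e = f (ρ c) → f (α e) ∈ S → e = ρ c := fun e k1 k2 => by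
    rcases t2 e k1 with rfl | rfl | rfl
    · rfl
    · exact absurd k2 (s2 _ (by rw [φ3 h4 t3]; exact mem_St.2 (Or.inr (Or.inr rfl))))
    · exact absurd k2 (s2 _ (by rw [t3, αα]; exact in1' c))
  have o3 : ∀ e, f e = f (α (ρ (ρ c))) → f (α e) ∈ S → e = α (ρ (ρ c)) := fun e k1 k2 => by
    rcases g2 e (k1.trans (fρ _).symm) with rfl | rfl | rfl
    · exact absurd k2 (s2 _ (by rw [← fρ, h4]; exact in1' c))
    · exact absurd k2 s3
    · exact g3
  have hT : ∀ A, St c ⊆ A → A ⊆ S → Disc A → Tr D (ell A) := fun A a1 a2 a3 => by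
    obtain ⟨b1, b2⟩ := leaf (d := ρ c) a3 (a1 i1) (fρ (ρ c) ▸ a1 i2) fun e k1 k2 => o1 e k1 (a2 k2)
    obtain ⟨b3, b4⟩ := leaf (d := α (ρ (ρ c))) b1
      (fρ (ρ (ρ c)) ▸ mem_erase.2 ⟨ne2 _, a1 i3⟩) (by
        rw [αα]; exact mem_erase.2 ⟨ne1 _, a1 i2⟩) fun e k1 k2 => o3 e k1 (a2 (mem_of_mem_erase k2))
    rw [← fρ, h3] at b4
    rw [← fρ] at b3
    exact ⟨⟨A, a3, rfl⟩, ⟨_, b1, by omega⟩, ⟨_, b3, by omega⟩⟩
  obtain ⟨r1, r2, r3⟩ := root c
  have key := run (lo := 5) r1 hS s1' hT (by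
    have k := step (lo := 5) (a := 4) (s := sz (f (ρ (ρ c))) + (5 - sz (f (ρ (ρ c)))))
      (hT _ Subset.rfl s1' r1) (by omega)
    have z : miss D 5 (4 + 1) = 0 := by simp [miss]
    omega)
  rwa [((cnt D).2.2.2.2.2.2.2.2.2.2.2 S hS).2 s4] at key

/-- A triangle next to a quadrangle. -/
theorem house [Q4 D] {c : D} (h0 : sz (f c) = 3) (h1 : sz (f (α c)) = 4) :
    miss D 7 (nv D + 1) ≤ ∑ x : F D, (sz x - 5) := by
  have h4 := (cnt D).1
  have i1 : f (ρ c) ∈ St c := mem_St.2 (Or.inl rfl)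
  have i2 : f (ρ (ρ c)) ∈ St c := mem_St.2 (Or.inr (Or.inl rfl))
  have i3 : f (ρ (ρ (ρ c))) ∈ St c := mem_St.2 (Or.inr (Or.inr rfl))
  have h1' : sz (f (ρ c)) = 4 := by rwa [fρ]
  obtain ⟨t1, t2⟩ := tri3 h0
  obtain ⟨g1, g2⟩ := quad4 h1'
  have g3 : φ (φ (φ (ρ c))) = α c := φ.injective (by rw [g1, φ_def, αα])
  obtain ⟨S, hS, s1', s2, s3, s4⟩ := ext h4 c (α (φ (ρ c))) (by rw [αα, fφ]; exact i1)
    fun k => by
      rcases inner (d := φ (ρ c)) (by rw [fφ]; exact i1) k with x | x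
      · exact face_v1 _ (x.trans (by simp))
      · exact face_v2 (ρ c) ((vφ _).trans (x.trans (by simp)))
  have o1 : ∀ e, f e = f (ρ c) → f (α e) ∈ S → e = ρ c := fun e k1 k2 => by
    rcases g2 e k1 with rfl | rfl | rfl | rfl
    · rfl
    · exact absurd k2 s3
    · exact absurd k2 (s2 _ (by rw [φ3 h4 g3]; exact mem_St.2 (Or.inr (Or.inr rfl))))
    · exact absurd k2 (s2 _ (by rw [g3, αα]; exact in1' c))
  have hT : ∀ A, St c ⊆ A → A ⊆ S → Disc A → Tr D (ell A) := fun A a1 a2 a3 => by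
    obtain ⟨b1, b2⟩ := leaf (d := ρ c) a3 (a1 i1) (fρ (ρ c) ▸ a1 i2) fun e k1 k2 => o1 e k1 (a2 k2)
    obtain ⟨b3, b4⟩ := leaf (d := φ c) a3.compl
      (mem_compl.2 fun m => s2 _ (in1' c) (fφ c ▸ a2 m)) (mem_compl.2 fun m => s2 _ (by
        rw [← fρ, φ_def]; exact mem_St.2 (Or.inr (Or.inl rfl))) (a2 m)) fun e k1 k2 => by
        rcases t2 e (k1.trans (fφ c)) with rfl | rfl | rfl
        · exact absurd (a1 (in1 _)) (mem_compl.1 k2)
        · rfl
        · exact absurd (a1 (by rw [φ3 h4 t1]; exact i3)) (mem_compl.1 k2)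
    rw [fφ, h0, ell_compl] at b4
    rw [fφ] at b3
    exact ⟨⟨A, a3, rfl⟩, ⟨_, b3, by omega⟩, ⟨_, b1, by omega⟩⟩
  obtain ⟨r1, r2, r3⟩ := root c
  have key := run (lo := 7) r1 hS s1' hT (by
    have p := has_pair (ρ c)
    rw [← fρ (ρ c), h1'] at p
    have q := hT _ Subset.rfl s1' r1
    rw [r3]
    generalize sz (f (ρ (ρ c))) = m at *
    generalize sz (f (ρ (ρ (ρ c)))) = g at *
    refine (card_le_card (t := (Ico 7 (ell (St c) - 2)).erase (m + 2)) fun k hk => ?_).trans ?_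
    · rw [mem_filter, mem_Ico] at hk
      have k1 : k ≠ ell (St c) := fun m => hk.2 (m ▸ q.1)
      have k2 : k ≠ ell (St c) - 1 := fun m => hk.2 (m ▸ q.2.1)
      have k3 : k ≠ ell (St c) - 2 := fun m => hk.2 (m ▸ q.2.2)
      have k4 : k ≠ 4 + m - 2 := fun m => hk.2 (m ▸ p)
      rw [mem_erase, mem_Ico]
      omega
    · rw [card_erase_eq_ite, Nat.card_Ico]
      split_ifs with k <;> rw [mem_Ico] at k <;> omega)
  rwa [((cnt D).2.2.2.2.2.2.2.2.2.2.2 S hS).2 s4] at key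

end F5

end Pool.Agent.MP_42ec7b_co
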